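import Pool.Agent.H983R2.ONJ.Main
import Pool.Agent.H983R2.ONJ.Gib1
import Pool.Agent.H983R2.ONJ.Gib2
import Pool.Agent.H983R2.ONJ.Trunc

/-! # Task STEP: recursion and fast decay of the influence (helper993), port of
`Pool.Agent.H655R2.ON3.Step` of helper655 -/

set_option autoImplicit false

noncomputable section

namespace Pool.Agent.H983R2.ONJ

open MvPolynomial MeasureTheory Pool.Agent.H5R2.ON Pool.Agent.H717R2.ON3

namespace Aux993

theorem st_cc_abs_le {N : ℕ} (i : Fin N) (s : Sph N) : |cc i s| ≤ 1 := by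
  have h1 : ‖(s : EuclideanSpace ℝ (Fin N))‖ = 1 := by
    have := s.2
    rwa [mem_sphere_zero_iff_norm] at this
  have h2 := PiLp.norm_apply_le (s : EuclideanSpace ℝ (Fin N)) i
  rw [h1] at h2
  simpa [cc, Real.norm_eq_abs] using h2

theorem st_cc_cont {N : ℕ} (i : Fin N) : Continuous (cc i : Sph N → ℝ) := by
  unfold cc
  fun_prop

theorem st_eval_cont {N L : ℕ} (c : Fin 3 → Fin N) (U : Alg (Tor L)) :
    Continuous (fun S : Conf N L => eval (pt c S) U) := by
  have h1 : Continuous (fun σ : Tor L × Fin 3 → ℝ => eval σ U) := MvPolynomial.continuous_eval U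
  refine h1.comp (continuous_pi fun i => ?_)
  unfold pt
  exact (st_cc_cont _).comp (continuous_apply _)

theorem st_bdd {N L : ℕ} {G : Conf N L → ℝ} (hG : Continuous G) : ∃ B : ℝ, ∀ S, |G S| ≤ B := by
  obtain ⟨B, hB⟩ := (isCompact_univ (X := Conf N L)).exists_bound_of_continuousOn hG.continuousOn
  exact ⟨B, fun S => hB S (Set.mem_univ _)⟩

/-- the core of the recursion for one multigraph coupling -/
theorem core {N L : ℕ} [NeZero L] (hN : 3 ≤ N) {ε : ℝ} (hε : 0 < ε) {ι : Type} [Fintype ι]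
    (Gm : Gr (Tor L) ι) (β : ℝ) (R m : ℝ) (hRpos : 0 < R) (hm : 0 ≤ m) (p : Tor L)
    (hmain : ∀ (W : WFun Gm β (ball p R)), ∃ U : Alg (Tor L),
      W.E (U ^ 2) ≤ ε ^ 2 ∧ W.E (X (p, 0)) = W.E (U * X (p, 1)) ∧
      ∀ σ σ' : Tor L × Fin 3 → ℝ,
        (∀ x, R / 8 ≤ tnorm (x - p) → ∀ g, σ (x, g) = σ' (x, g)) →
          eval σ U = eval σ' U)
    (hinf : ∀ (η : Conf N L) (i : Fin N),
      |gH (fun S => β * enG Gm S) (ball p (R / 10)) η (fun S => cc i (S p))| ≤ m)
    (η : Conf N L) (i : Fin N) :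
    |gH (fun S => β * enG Gm S) (ball p R) η (fun S => cc i (S p))| ≤ ε * m := by
  have hN0 : N ≠ 0 := by omega
  have hHc : Continuous (fun S : Conf N L => β * enG Gm S) :=
    (continuous_enG Gm).const_mul β
  -- the three components
  obtain ⟨c, hc, hc0⟩ : ∃ c : Fin 3 → Fin N, Function.Injective c ∧ c 0 = i := by
    let e : Fin 3 → Fin N := fun j => ⟨j, by omega⟩
    have he : Function.Injective e := fun a b h => Fin.ext (by simpa [e] using h)
    refine ⟨fun j => Equiv.swap (e 0) i (e j), ?_, ?_⟩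
    · exact (Equiv.swap (e 0) i).injective.comp he
    · exact Equiv.swap_apply_left _ _
  obtain ⟨W, hW⟩ := gH_wfun hN0 Gm β (ball p R) η c hc
  obtain ⟨U, hU2, hUX, hUloc⟩ := hmain W
  set H : Conf N L → ℝ := fun S => β * enG Gm S with hH
  set G : Conf N L → ℝ := fun S => eval (pt c S) U with hG
  set F : Conf N L → ℝ := fun S => cc (c 1) (S p) with hF
  have hGc : Continuous G := st_eval_cont c U
  have hFc : Continuous F := (st_cc_cont _).comp (continuous_apply _)
  obtain ⟨B, hB⟩ := st_bdd hGc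
  have e1 : gH H (ball p R) η (fun S => cc i (S p)) =
      gH H (ball p R) η (fun S => G S * F S) := by
    have h1 := hW (X (p, 0))
    have h2 := hW (U * X (p, 1))
    rw [hUX, h2] at h1
    have h3 : (fun S : Conf N L => eval (pt c S) (X (p, (0 : Fin 3)) : Alg (Tor L))) =
        fun S => cc i (S p) := by
      funext S
      rw [eval_X]
      simp only [pt, hc0]
    have h4 : (fun S : Conf N L => eval (pt c S) (U * X (p, (1 : Fin 3)) : Alg (Tor L))) =
        fun S => G S * F S := by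
      funext S
      rw [map_mul, eval_X]
      rfl
    rw [h3, h4] at h1
    exact h1.symm
  rw [e1]
  have hsub : ball p (R / 10) ⊆ ball p R := by
    intro z hz
    unfold ball at hz ⊢
    rw [Finset.mem_filter] at hz ⊢
    exact ⟨hz.1, hz.2.trans (by linarith)⟩
  have h1 := gH_influence hN0 hHc hsub η hFc hGc.measurable B hB (by
    intro S S' hSS
    refine hUloc _ _ fun x hx g => ?_
    have hx' : x ∉ ball p (R / 10) := by
      unfold ball
      rw [Finset.mem_filter]
      intro h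
      have := h.2
      linarith
    simp only [pt, hSS x hx']) m (by
    intro η'
    exact hinf η' (c 1))
  refine h1.trans ?_
  have h2 : gH H (ball p R) η (fun S => |G S|) ≤ ε := by
    have hG2 : gH H (ball p R) η (fun S => G S ^ 2) ≤ ε ^ 2 := by
      have h3 := hW (U ^ 2)
      rw [h3] at hU2
      refine le_of_eq_of_le ?_ hU2
      congr 1
      funext S
      rw [map_pow]
    have hB0 : 0 ≤ B := (abs_nonneg _).trans (hB (fun _ => η p))
    have hm1 : Measurable (fun S => G S ^ 2) := (hGc.pow 2).measurable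
    have h4 : ∀ S, |G S| ≤ 1 / (2 * ε) * G S ^ 2 + ε / 2 := by
      intro S
      have h5 : 0 ≤ (|G S| - ε) ^ 2 := sq_nonneg _
      have h6 : |G S| ^ 2 = G S ^ 2 := sq_abs _
      have h7 : 1 / (2 * ε) * G S ^ 2 + ε / 2 - |G S| = (|G S| - ε) ^ 2 / (2 * ε) := by
        rw [← h6]; field_simp; ring
      have h8 : 0 ≤ (|G S| - ε) ^ 2 / (2 * ε) := by positivity
      linarith
    have hG2B : ∀ S, |G S ^ 2| ≤ B ^ 2 := by
      intro S
      rw [abs_pow]
      exact pow_le_pow_left₀ (abs_nonneg _) (hB S) 2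
    have hq : ∀ S, |1 / (2 * ε) * G S ^ 2| ≤ 1 / (2 * ε) * B ^ 2 := by
      intro S
      rw [abs_mul, abs_of_pos (by positivity : (0 : ℝ) < 1 / (2 * ε))]
      exact mul_le_mul_of_nonneg_left (hG2B S) (by positivity)
    have hB1 : 0 ≤ 1 / (2 * ε) * B ^ 2 := by positivity
    have hsum := gH_add hN0 hHc (ball p R) η (F := fun S => 1 / (2 * ε) * G S ^ 2)
      (G := fun _ => ε / 2) (hm1.const_mul _) measurable_const
      (1 / (2 * ε) * B ^ 2 + ε / 2) (fun S => (hq S).trans (by linarith))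
      (fun S => by rw [abs_of_pos (by positivity)]; linarith)
    have hmono := gH_mono hN0 hHc (ball p R) η (F := fun S => |G S|)
      (G := fun S => 1 / (2 * ε) * G S ^ 2 + ε / 2) hGc.abs.measurable
      ((hm1.const_mul _).add measurable_const)
      (B + (1 / (2 * ε) * B ^ 2 + ε / 2))
      (fun S => by rw [abs_abs]; have := hB S; linarith)
      (fun S => by
        refine (abs_add_le _ _).trans ?_
        rw [abs_of_pos (by positivity : (0 : ℝ) < ε / 2)]
        have := hq S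
        linarith) h4
    rw [hsum, gH_smul, gH_const hN0 hHc] at hmono
    refine hmono.trans ?_
    have h9 : 1 / (2 * ε) * gH H (ball p R) η (fun S => G S ^ 2) ≤ 1 / (2 * ε) * ε ^ 2 :=
      mul_le_mul_of_nonneg_left hG2 (by positivity)
    have h10 : 1 / (2 * ε) * ε ^ 2 = ε / 2 := by field_simp
    linarith
  calc m * gH H (ball p R) η (fun S => |G S|) ≤ m * ε := mul_le_mul_of_nonneg_left h2 hm
    _ = ε * m := mul_comm _ _

theorem st_MBJ_one (N : ℕ) (hN : 3 ≤ N) (A a : ℝ) (R : ℝ) : MBJ N A a R 1 := by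
  intro L _ _ c _ p η i
  have hN0 : N ≠ 0 := by omega
  have hHc : Continuous (pS c : Conf N L → ℝ) := continuous_pS c
  have hFc : Continuous (fun S : Conf N L => cc i (S p)) :=
    (st_cc_cont _).comp (continuous_apply _)
  have h1 := gH_mono hN0 hHc (ball p R) η (F := fun S => cc i (S p)) (G := fun _ => 1)
    hFc.measurable measurable_const 1 (fun S => st_cc_abs_le _ _) (fun _ => by simp)
    (fun S => (abs_le.1 (st_cc_abs_le _ _)).2)
  have h2 := gH_mono hN0 hHc (ball p R) η (F := fun _ => -1) (G := fun S => cc i (S p))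
    measurable_const hFc.measurable 1 (fun _ => by simp) (fun S => st_cc_abs_le _ _)
    (fun S => (abs_le.1 (st_cc_abs_le _ _)).1)
  rw [gH_const hN0 hHc] at h1 h2
  exact abs_le.2 ⟨h2, h1⟩

theorem st_MBJ_mono {N : ℕ} {A a R m m' : ℝ} (h : MBJ N A a R m) (hm : m ≤ m') :
    MBJ N A a R m' := by
  intro L _ hL c hc p η i
  exact (h L hL c hc p η i).trans hm

/-- the truncation error is eventually at most `0.9 / R ^ 4` -/
theorem err_small (C a : ℝ) (hC : 0 < C) (ha : 0 < a) : ∃ R₁ : ℝ, 1 ≤ R₁ ∧ ∀ R : ℝ, R₁ ≤ R →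
    Real.exp (C * R ^ 2 * Real.exp (-(a / 2) * √R)) - 1 ≤ (9 / 10) / R ^ 4 := by
  have h1 : Filter.Tendsto (fun x : ℝ => x ^ 12 * Real.exp (-x)) Filter.atTop (nhds 0) :=
    Real.tendsto_pow_mul_exp_neg_atTop_nhds_zero 12
  have h2 : Filter.Tendsto (fun R : ℝ => (a / 2) * √R) Filter.atTop Filter.atTop :=
    Filter.Tendsto.const_mul_atTop (by positivity) Real.tendsto_sqrt_atTop
  have h3 := h1.comp h2
  have hpos : (0 : ℝ) < (9 / 20) / C * (a / 2) ^ 12 := by positivity
  have h4 := (h3.eventually (gt_mem_nhds hpos)).and (Filter.eventually_ge_atTop (1 : ℝ))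
  obtain ⟨R₁, hR₁⟩ := Filter.eventually_atTop.1 h4
  refine ⟨max R₁ 1, le_max_right _ _, ?_⟩
  intro R hR
  obtain ⟨h5, h6⟩ := hR₁ R ((le_max_left _ _).trans hR)
  have hR0 : 0 < R := by linarith
  simp only [Function.comp] at h5
  have h7 : (a / 2 * √R) ^ 12 = (a / 2) ^ 12 * R ^ 6 := by
    rw [mul_pow]
    congr 1
    calc √R ^ 12 = (√R ^ 2) ^ 6 := by ring
      _ = R ^ 6 := by rw [Real.sq_sqrt hR0.le]
  rw [h7] at h5
  have h8 : -(a / 2 * √R) = -(a / 2) * √R := by ring
  rw [h8] at h5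
  set E := Real.exp (-(a / 2) * √R) with hE
  have hE0 : 0 < E := Real.exp_pos _
  have h9 : R ^ 6 * E < (9 / 20) / C := by
    have h10 : (a / 2) ^ 12 * (R ^ 6 * E) < (a / 2) ^ 12 * ((9 / 20) / C) := by
      calc (a / 2) ^ 12 * (R ^ 6 * E) = (a / 2) ^ 12 * R ^ 6 * E := by ring
        _ < (9 / 20) / C * (a / 2) ^ 12 := h5
        _ = _ := by ring
    exact lt_of_mul_lt_mul_left h10 (by positivity)
  have h11 : C * (R ^ 6 * E) < 9 / 20 := by
    have := mul_lt_mul_of_pos_left h9 hC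
    rwa [mul_div_cancel₀ _ hC.ne'] at this
  set x := C * R ^ 2 * E with hx
  have hx0 : 0 < x := by positivity
  have h12 : x * R ^ 4 < 9 / 20 := by
    calc x * R ^ 4 = C * (R ^ 6 * E) := by rw [hx]; ring
      _ < _ := h11
  have h13 : x ≤ 1 := by
    have h14 : (1 : ℝ) ≤ R ^ 4 := one_le_pow₀ h6
    have h15 : x * 1 ≤ x * R ^ 4 := mul_le_mul_of_nonneg_left h14 hx0.le
    linarith
  have h16 : Real.exp x - 1 ≤ 2 * x := by
    have h17 := Real.abs_exp_sub_one_le (x := x) (by rw [abs_of_pos hx0]; exact h13)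
    rw [abs_of_pos hx0] at h17
    exact (le_abs_self _).trans h17
  refine h16.trans ?_
  rw [le_div_iff₀ (by positivity)]
  linarith

end Aux993

open Aux993

theorem MBJ_step (N : ℕ) (hN : 3 ≤ N) (A a : ℝ) (hA : 0 ≤ A) (ha : 0 < a) (ε : ℝ)
    (hε : 0 < ε) : ∃ R₀ C : ℝ, 0 < R₀ ∧ 0 < C ∧ ∀ R : ℝ, R₀ ≤ R → ∀ m : ℝ, 0 ≤ m →
      MBJ N A a (R / 10) m →
      MBJ N A a R (ε * m + (Real.exp (C * R ^ 2 * Real.exp (-(a / 2) * √R)) - 1)) := by
  have hN0 : N ≠ 0 := by omega
  obtain ⟨K, hK, hnice⟩ := nice_gJ A a hA ha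
  obtain ⟨C, hC, htr⟩ := trunc A a hA ha
  obtain ⟨R₀, hR₀, hmain⟩ := main_boundJ K (ε ^ 2) hK (by positivity)
  refine ⟨max R₀ 1, C, lt_of_lt_of_le hR₀ (le_max_left _ _), hC, ?_⟩
  intro R hR m hm hMB L _ hL c hc p η i
  have hR0 : R₀ ≤ R := (le_max_left _ _).trans hR
  have hR1 : 1 ≤ R := (le_max_right _ _).trans hR
  have hRpos : 0 < R := by linarith
  have hsq : 1 ≤ √R := Real.one_le_sqrt.2 hR1
  obtain ⟨k, n, hn, hkc, hkr, hcomp⟩ := htr L c hc p R (√R) hR1 (Real.sqrt_nonneg R)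
  have hNice := hnice L k n (√R) hn (Real.sqrt_nonneg R) hkc hkr
  have hHeq : (fun S : Conf N L => (1 / (n : ℝ)) * enG (gJ k) S) =
      pS (fun e => (k e : ℝ) / n) := by
    funext S
    exact enG_gJ k n S
  have h1 : |gH (fun S : Conf N L => (1 / (n : ℝ)) * enG (gJ k) S) (ball p R) η
      (fun S => cc i (S p))| ≤ ε * m := by
    refine core hN hε (gJ k) (1 / (n : ℝ)) R m hRpos hm p ?_ ?_ η i
    · intro W
      exact hmain R hR0 L hL (gJ k) (1 / (n : ℝ)) (√R) hNice hsq le_rfl p W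
    · intro η' j
      rw [hHeq]
      exact hMB L (by linarith) _ hkc p η' j
  have hFc : Continuous (fun S : Conf N L => cc i (S p)) :=
    (st_cc_cont _).comp (continuous_apply _)
  have h2 := hcomp N hN0 η (fun S => cc i (S p)) hFc.measurable
    (fun S => st_cc_abs_le _ _)
  have h3 : gH (pS c) (ball p R) η (fun S => cc i (S p)) =
      gH (fun S : Conf N L => (1 / (n : ℝ)) * enG (gJ k) S) (ball p R) η
        (fun S => cc i (S p)) +
      (gH (pS c) (ball p R) η (fun S => cc i (S p)) -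
        gH (fun S : Conf N L => (1 / (n : ℝ)) * enG (gJ k) S) (ball p R) η
          (fun S => cc i (S p))) := by ring
  rw [h3]
  exact (abs_add_le _ _).trans (add_le_add h1 h2)

theorem MBJ_decay (N : ℕ) (hN : 3 ≤ N) (A a : ℝ) (hA : 0 ≤ A) (ha : 0 < a) :
    ∃ C : ℝ, 0 < C ∧ ∀ R : ℝ, 1 ≤ R → MBJ N A a R (C / R ^ 4) := by
  obtain ⟨R₀, C', hR₀, hC', hstep⟩ := MBJ_step N hN A a hA ha (1 / 100000) (by norm_num)
  obtain ⟨R₁, hR₁, herr⟩ := err_small C' a hC' ha
  set R₂ : ℝ := max (max R₀ R₁) 10 with hR₂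
  have hR₂0 : R₀ ≤ R₂ := (le_max_left _ _).trans (le_max_left _ _)
  have hR₂1 : R₁ ≤ R₂ := (le_max_right _ _).trans (le_max_left _ _)
  have hR₂2 : 10 ≤ R₂ := le_max_right _ _
  have hC1 : (1 : ℝ) ≤ R₂ ^ 4 := one_le_pow₀ (by linarith)
  refine ⟨R₂ ^ 4, by positivity, ?_⟩
  have hP : ∀ (k : ℕ) (R : ℝ), 1 ≤ R → R ≤ R₂ * 10 ^ k → MBJ N A a R (R₂ ^ 4 / R ^ 4) := by
    have hbase : ∀ R : ℝ, 1 ≤ R → R ≤ R₂ → MBJ N A a R (R₂ ^ 4 / R ^ 4) := by
      intro R hR hR2
      refine st_MBJ_mono (st_MBJ_one N hN A a R) ?_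
      rw [le_div_iff₀ (by positivity), one_mul]
      exact pow_le_pow_left₀ (by linarith) hR2 4
    intro k
    induction k with
    | zero =>
      intro R hR hR2
      rw [pow_zero, mul_one] at hR2
      exact hbase R hR hR2
    | succ k ih =>
      intro R hR hR2
      by_cases h : R ≤ R₂
      · exact hbase R hR h
      · push Not at h
        have hRpos : 0 < R := by linarith
        have h1 : MBJ N A a (R / 10) (R₂ ^ 4 / (R / 10) ^ 4) := by
          refine ih (R / 10) (by linarith) ?_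
          rw [pow_succ] at hR2
          linarith
        have h2 := hstep R (by linarith) (R₂ ^ 4 / (R / 10) ^ 4) (by positivity) h1
        refine st_MBJ_mono h2 ?_
        have h3 := herr R (by linarith)
        have h4 : 1 / 100000 * (R₂ ^ 4 / (R / 10) ^ 4) = (1 / 10) * (R₂ ^ 4 / R ^ 4) := by
          field_simp
          norm_num
        have h5 : (9 / 10) / R ^ 4 ≤ (9 / 10) * (R₂ ^ 4 / R ^ 4) := by
          rw [← mul_div_assoc]
          refine div_le_div_of_nonneg_right ?_ (by positivity)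
          linarith
        rw [h4]
        linarith
  intro R hR
  obtain ⟨k, hk⟩ : ∃ k : ℕ, R < R₂ * 10 ^ k := by
    obtain ⟨k, hk⟩ := pow_unbounded_of_one_lt (R / R₂) (by norm_num : (1 : ℝ) < 10)
    refine ⟨k, ?_⟩
    rw [div_lt_iff₀ (by linarith)] at hk
    linarith
  exact hP k R hR hk.le

end Pool.Agent.H983R2.ONJ
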